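import Pool.Agent.H90.MR.StmBox

/-! # Project MR (helper90): module BOX (helper59) -/

set_option autoImplicit false

namespace Pool.Agent.H59.MR

open Finset MeasureTheory Filter Pool.Agent.H90.MR

open Classical in
/-- number of the values below `y k` -/
noncomputable def rL (M : ℕ) (y : ℕ → ℝ) (k : ℕ) : ℕ := ((range M).filter (fun l => y l < y k)).card

open Classical in
/-- number of the values above `y k` -/
noncomputable def rU (M : ℕ) (y : ℕ → ℝ) (k : ℕ) : ℕ := ((range M).filter (fun l => y k < y l)).card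

open Classical in
noncomputable def bL (M : ℕ) (y : ℕ → ℝ) (b : ℝ) : ℕ := ((range M).filter (fun l => y l < b)).card

open Classical in
noncomputable def bU (M : ℕ) (y : ℕ → ℝ) (a : ℝ) : ℕ := ((range M).filter (fun l => a ≤ y l)).card

theorem rL_lt (M : ℕ) (y : ℕ → ℝ) (k : ℕ) (hk : k < M) : rL M y k < M := by
  unfold rL
  calc ((range M).filter (fun l => y l < y k)).card < (range M).card := by
        apply card_lt_card
        refine ⟨filter_subset _ _, fun h => ?_⟩
        have := h (mem_range.2 hk)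
        simp at this
    _ = M := card_range M

theorem rU_lt (M : ℕ) (y : ℕ → ℝ) (k : ℕ) (hk : k < M) : rU M y k < M := by
  unfold rU
  calc ((range M).filter (fun l => y k < y l)).card < (range M).card := by
        apply card_lt_card
        refine ⟨filter_subset _ _, fun h => ?_⟩
        have := h (mem_range.2 hk)
        simp at this
    _ = M := card_range M

theorem bL_le (M : ℕ) (y : ℕ → ℝ) (b : ℝ) : bL M y b ≤ M := by
  unfold bL
  exact (card_filter_le _ _).trans_eq (card_range M)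

theorem bU_le (M : ℕ) (y : ℕ → ℝ) (b : ℝ) : bU M y b ≤ M := by
  unfold bU
  exact (card_filter_le _ _).trans_eq (card_range M)

theorem lt_iffL (M : ℕ) (y : ℕ → ℝ) (b : ℝ) (k : ℕ) (hk : k < M) : y k < b ↔ rL M y k < bL M y b := by
  unfold rL bL
  constructor
  · intro h
    apply card_lt_card
    refine ⟨fun l hl => ?_, fun h' => ?_⟩
    · rw [mem_filter] at hl ⊢
      exact ⟨hl.1, hl.2.trans h⟩
    · have := h' (mem_filter.2 ⟨mem_range.2 hk, h⟩)
      simp at this
  · intro h
    by_contra h'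
    push Not at h'
    refine absurd h (not_lt.2 (card_le_card fun l hl => ?_))
    rw [mem_filter] at hl ⊢
    exact ⟨hl.1, hl.2.trans_le h'⟩

theorem le_iffU (M : ℕ) (y : ℕ → ℝ) (a : ℝ) (k : ℕ) (hk : k < M) : a ≤ y k ↔ rU M y k < bU M y a := by
  unfold rU bU
  constructor
  · intro h
    apply card_lt_card
    refine ⟨fun l hl => ?_, fun h' => ?_⟩
    · rw [mem_filter] at hl ⊢
      exact ⟨hl.1, h.trans hl.2.le⟩
    · have := h' (mem_filter.2 ⟨mem_range.2 hk, h⟩)
      simp at this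
  · intro h
    by_contra h'
    push Not at h'
    refine absurd h (not_lt.2 (card_le_card fun l hl => ?_))
    rw [mem_filter] at hl ⊢
    exact ⟨hl.1, h'.trans_le hl.2⟩

/-- the list of the rank functions -/
noncomputable def rsl (x : ℕ → ℝ) (s m : ℕ) : List (ℕ → ℕ) :=
  (List.finRange s).map (fun j : Fin s => rL (2 ^ m) (fun k => x (k + j))) ++
    (List.finRange s).map (fun j : Fin s => rU (2 ^ m) (fun k => x (k + j)))

/-- the list of the rank functions and of the thresholds -/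
noncomputable def rbl (x : ℕ → ℝ) (s m : ℕ) (a b : Fin s → ℝ) : List ((ℕ → ℕ) × ℕ) :=
  (List.finRange s).map (fun j : Fin s => (rL (2 ^ m) (fun k => x (k + j)), bL (2 ^ m) (fun k => x (k + j)) (b j))) ++
    (List.finRange s).map (fun j : Fin s => (rU (2 ^ m) (fun k => x (k + j)), bU (2 ^ m) (fun k => x (k + j)) (a j)))

theorem rbl_fst (x : ℕ → ℝ) (s m : ℕ) (a b : Fin s → ℝ) : (rbl x s m a b).map Prod.fst = rsl x s m := by
  simp [rbl, rsl, Function.comp_def]

theorem rsl_length (x : ℕ → ℝ) (s m : ℕ) : (rsl x s m).length = 2 * s := by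
  simp [rsl]
  omega

theorem rsl_lt (x : ℕ → ℝ) (s m : ℕ) : ∀ r ∈ rsl x s m, ∀ k < 2 ^ m, r k < 2 ^ m := by
  intro r hr k hk
  simp only [rsl, List.mem_append, List.mem_map] at hr
  rcases hr with ⟨j, _, rfl⟩ | ⟨j, _, rfl⟩
  · exact rL_lt _ _ k hk
  · exact rU_lt _ _ k hk

theorem rbl_le (x : ℕ → ℝ) (s m : ℕ) (a b : Fin s → ℝ) : ∀ z ∈ rbl x s m a b, z.2 ≤ 2 ^ m := by
  intro r hr
  simp only [rbl, List.mem_append, List.mem_map] at hr
  rcases hr with ⟨j, _, rfl⟩ | ⟨j, _, rfl⟩
  · exact bL_le _ _ _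
  · exact bU_le _ _ _

theorem rbl_iff (x : ℕ → ℝ) (s m : ℕ) (a b : Fin s → ℝ) (k : ℕ) (hk : k < 2 ^ m) :
    (∀ z ∈ rbl x s m a b, z.1 k < z.2) ↔ ∀ j : Fin s, a j ≤ x (k + j) ∧ x (k + j) < b j := by
  constructor
  · intro h j
    constructor
    · refine (le_iffU (2 ^ m) (fun k => x (k + j)) (a j) k hk).2
        (h (rU (2 ^ m) (fun k => x (k + j)), bU (2 ^ m) (fun k => x (k + j)) (a j)) ?_)
      simp only [rbl, List.mem_append, List.mem_map]
      exact Or.inr ⟨j, List.mem_finRange j, rfl⟩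
    · refine (lt_iffL (2 ^ m) (fun k => x (k + j)) (b j) k hk).2
        (h (rL (2 ^ m) (fun k => x (k + j)), bL (2 ^ m) (fun k => x (k + j)) (b j)) ?_)
      simp only [rbl, List.mem_append, List.mem_map]
      exact Or.inl ⟨j, List.mem_finRange j, rfl⟩
  · intro h z hz
    simp only [rbl, List.mem_append, List.mem_map] at hz
    rcases hz with ⟨j, _, rfl⟩ | ⟨j, _, rfl⟩
    · exact (lt_iffL (2 ^ m) (fun k => x (k + j)) (b j) k hk).1 (h j).2
    · exact (le_iffU (2 ^ m) (fun k => x (k + j)) (a j) k hk).1 (h j).1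

open Classical in
theorem box (hM : S_MET) : S_BOX := by
  intro n hn hn0 hc x s
  filter_upwards [arcs hM n hn hn0 hc (2 * s) (rsl x s) (fun _ => []) (rsl_length x s) (rsl_lt x s)] with α hα
  obtain ⟨K₀, hK₀⟩ := hα
  refine ⟨K₀, fun K hK a b v hv0 hv1 => ?_⟩
  have h := hK₀ K hK (rbl x s (Nat.clog 2 K) a b) (rbl_fst x s _ a b) (rbl_le x s _ a b) v hv0 hv1 {[]}
  rw [sum_singleton] at h
  have hlt : ∀ k ∈ range K, k < 2 ^ Nat.clog 2 K := fun k hk =>
    (mem_range.1 hk).trans_le (Nat.le_pow_clog (by norm_num) K)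
  have e : 2 * (2 * s) + 11 = 4 * s + 11 := by ring
  rw [e] at h
  have c1 : ((range K).filter (fun k => (([] : List ℤ) = [] ∧ ∀ z ∈ rbl x s (Nat.clog 2 K) a b, z.1 k < z.2) ∧
      Int.fract (n k * α) < v)) =
      ((range K).filter (fun k => (∀ j : Fin s, a j ≤ x (k + j) ∧ x (k + j) < b j) ∧ Int.fract (n k * α) < v)) := by
    apply filter_congr
    intro k hk
    rw [rbl_iff x s _ a b k (hlt k hk)]
    simp
  have c2 : ((range K).filter (fun k => ([] : List ℤ) = [] ∧ ∀ z ∈ rbl x s (Nat.clog 2 K) a b, z.1 k < z.2)) =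
      ((range K).filter (fun k => ∀ j : Fin s, a j ≤ x (k + j) ∧ x (k + j) < b j)) := by
    apply filter_congr
    intro k hk
    rw [rbl_iff x s _ a b k (hlt k hk)]
    simp
  rw [← c1, ← c2]
  exact h

open Classical in
theorem boxt (hM : S_THIN) : S_BOXT := by
  intro n hn hn0 hc δ hδ hδa x s
  filter_upwards [targets hM n hn hn0 hc δ hδ hδa (2 * s) (rsl x s) (fun _ => []) (rsl_length x s) (rsl_lt x s)] with α hα
  obtain ⟨K₀, hK₀⟩ := hα
  refine ⟨K₀, fun K hK a b => ?_⟩
  have h := hK₀ K hK (rbl x s (Nat.clog 2 K) a b) (rbl_fst x s _ a b) (rbl_le x s _ a b) {[]}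
  rw [sum_singleton] at h
  have hlt : ∀ k ∈ range K, k < 2 ^ Nat.clog 2 K := fun k hk =>
    (mem_range.1 hk).trans_le (Nat.le_pow_clog (by norm_num) K)
  have e : 2 * (2 * s) + 7 = 4 * s + 7 := by ring
  rw [e] at h
  have c1 : ((range K).filter (fun k => (([] : List ℤ) = [] ∧ ∀ z ∈ rbl x s (Nat.clog 2 K) a b, z.1 k < z.2) ∧
      Int.fract (n k * α) < δ k)) =
      ((range K).filter (fun k => (∀ j : Fin s, a j ≤ x (k + j) ∧ x (k + j) < b j) ∧ Int.fract (n k * α) < δ k)) := by
    apply filter_congr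
    intro k hk
    rw [rbl_iff x s _ a b k (hlt k hk)]
    simp
  have c2 : ((range K).filter (fun k => ([] : List ℤ) = [] ∧ ∀ z ∈ rbl x s (Nat.clog 2 K) a b, z.1 k < z.2)) =
      ((range K).filter (fun k => ∀ j : Fin s, a j ≤ x (k + j) ∧ x (k + j) < b j)) := by
    apply filter_congr
    intro k hk
    rw [rbl_iff x s _ a b k (hlt k hk)]
    simp
  rw [← c1, ← c2]
  exact h

end Pool.Agent.H59.MR
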