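import Pool.Agent.H90.MR.StmFam

/-! # Project MR (helper90): module MOB (helper59) -/

set_option autoImplicit false

namespace Pool.Agent.H59.MR

open Finset MeasureTheory Filter Pool.Agent.H90.MR

open Classical in
/-- counting -/
noncomputable def cnt (K : ℕ) (P : ℕ → Prop) : ℕ := ((range K).filter P).card

theorem cnt_eq (K : ℕ) (P : ℕ → Prop) [DecidablePred P] : ((range K).filter P).card = cnt K P := by
  unfold cnt
  exact congrArg card (Finset.ext fun k => by simp only [mem_filter])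

theorem below_card (S : Set ℕ) (N h : ℕ) (t : ℝ) :
    (below S N h t).card + cnt N (fun k => k + 1 ∈ S ∧ mobSum (k + 1) h ≤ t) =
      cnt (2 * N) (fun k => k + 1 ∈ S ∧ mobSum (k + 1) h ≤ t) := by
  classical
  have e1 : below S N h t = ((Ico N (2 * N)).filter (fun k => k + 1 ∈ S ∧ mobSum (k + 1) h ≤ t)).image (fun k => k + 1) := by
    ext n
    simp only [below, mem_filter, mem_Ioc, mem_image, mem_Ico]
    constructor
    · rintro ⟨⟨h1, h2⟩, h3, h4⟩
      refine ⟨n - 1, ⟨⟨by omega, by omega⟩, ?_⟩, by omega⟩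
      rw [Nat.sub_add_cancel (by omega)]
      exact ⟨h3, h4⟩
    · rintro ⟨k, ⟨⟨h1, h2⟩, h3, h4⟩, rfl⟩
      exact ⟨⟨by omega, by omega⟩, h3, h4⟩
  have e2 : (range (2 * N)).filter (fun k => k + 1 ∈ S ∧ mobSum (k + 1) h ≤ t) =
      ((Ico N (2 * N)).filter (fun k => k + 1 ∈ S ∧ mobSum (k + 1) h ≤ t)) ∪
        (range N).filter (fun k => k + 1 ∈ S ∧ mobSum (k + 1) h ≤ t) := by
    ext k
    simp only [mem_filter, mem_range, mem_union, mem_Ico]
    constructor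
    · rintro ⟨h1, h2⟩
      rcases Nat.lt_or_ge k N with h3 | h3
      · exact Or.inr ⟨h3, h2⟩
      · exact Or.inl ⟨⟨h3, h1⟩, h2⟩
    · rintro (⟨⟨_, h1⟩, h2⟩ | ⟨h1, h2⟩)
      · exact ⟨h1, h2⟩
      · exact ⟨by omega, h2⟩
  rw [← cnt_eq, ← cnt_eq, e1, card_image_of_injective _ (add_left_injective 1), e2, card_union_of_disjoint]
  rw [disjoint_left]
  intro k hk hk'
  simp only [mem_filter, mem_Ico, mem_range] at hk hk'
  omega

theorem win {n h h' : ℕ} (h1 : h' ≤ h) (h2 : h < n) : |mobSum n h - mobSum n h'| ≤ 2 * ((h : ℝ) - h') := by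
  unfold mobSum
  have hsub : Icc (n - h') (n + h') ⊆ Icc (n - h) (n + h) := Icc_subset_Icc (by omega) (by omega)
  rw [← sum_sdiff hsub, add_sub_cancel_right]
  calc |∑ k ∈ Icc (n - h) (n + h) \ Icc (n - h') (n + h'), (ArithmeticFunction.moebius k : ℝ)|
      ≤ ∑ k ∈ Icc (n - h) (n + h) \ Icc (n - h') (n + h'), |(ArithmeticFunction.moebius k : ℝ)| := abs_sum_le_sum_abs _ _
    _ ≤ ∑ k ∈ Icc (n - h) (n + h) \ Icc (n - h') (n + h'), (1 : ℝ) := by
        apply sum_le_sum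
        intro k _
        have := ArithmeticFunction.abs_moebius_le_one (n := k)
        exact_mod_cast this
    _ = 2 * ((h : ℝ) - h') := by
        rw [sum_const, card_sdiff_of_subset hsub, Nat.card_Icc, Nat.card_Icc, nsmul_eq_mul, mul_one]
        have e : n + h + 1 - (n - h) - (n + h' + 1 - (n - h')) = 2 * (h - h') := by omega
        rw [e]
        push_cast [Nat.cast_sub h1]
        ring

/-- one window length -/
theorem oneWin {α : ℝ} {N m h' : ℕ} {A : ℝ} (hN : 2 * N ≤ 2 ^ m)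
    (hM : ∀ K ≤ 2 ^ m, ∀ t v : ℝ, 0 ≤ v → v ≤ 1 →
      ((cnt K (fun k => mobSum (k + 1) h' ≤ t ∧ Int.fract (((k + 1 : ℕ) : ℝ) * α) < v) : ℝ) -
        v * cnt K (fun k => mobSum (k + 1) h' ≤ t)) ^ 2 ≤ A) (t v : ℝ) (hv0 : 0 ≤ v) (hv1 : v ≤ 1) :
    |((below (arcSet α v) N h' t).card : ℝ) - v * (below Set.univ N h' t).card| ≤ 2 * Real.sqrt A := by
  have h1 := Real.abs_le_sqrt (hM (2 * N) hN t v hv0 hv1)
  have h2 := Real.abs_le_sqrt (hM N (by omega) t v hv0 hv1)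
  have b1 := below_card (arcSet α v) N h' t
  have b2 := below_card Set.univ N h' t
  have e1 : ∀ K, cnt K (fun k => k + 1 ∈ arcSet α v ∧ mobSum (k + 1) h' ≤ t) =
      cnt K (fun k => mobSum (k + 1) h' ≤ t ∧ Int.fract (((k + 1 : ℕ) : ℝ) * α) < v) := by
    intro K
    congr 1
    funext k
    exact propext ⟨fun h => ⟨h.2, h.1⟩, fun h => ⟨h.2, h.1⟩⟩
  have e2 : ∀ K, cnt K (fun k => k + 1 ∈ (Set.univ : Set ℕ) ∧ mobSum (k + 1) h' ≤ t) =
      cnt K (fun k => mobSum (k + 1) h' ≤ t) := by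
    intro K
    congr 1
    funext k
    exact propext ⟨fun h => h.2, fun h => ⟨Set.mem_univ _, h⟩⟩
  rw [e1, e1] at b1
  rw [e2, e2] at b2
  have b1' : ((below (arcSet α v) N h' t).card : ℝ) =
      cnt (2 * N) (fun k => mobSum (k + 1) h' ≤ t ∧ Int.fract (((k + 1 : ℕ) : ℝ) * α) < v) -
        cnt N (fun k => mobSum (k + 1) h' ≤ t ∧ Int.fract (((k + 1 : ℕ) : ℝ) * α) < v) := by
    rw [← b1]
    push_cast
    ring
  have b2' : ((below Set.univ N h' t).card : ℝ) =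
      cnt (2 * N) (fun k => mobSum (k + 1) h' ≤ t) - cnt N (fun k => mobSum (k + 1) h' ≤ t) := by
    rw [← b2]
    push_cast
    ring
  rw [b1', b2']
  rw [abs_le] at h1 h2 ⊢
  constructor <;> linarith [h1.1, h1.2, h2.1, h2.2]

open Classical in
theorem below_mono {S : Set ℕ} {N h h' : ℕ} {t t' : ℝ}
    (hh : ∀ n, N < n → mobSum n h ≤ t → mobSum n h' ≤ t') : (below S N h t).card ≤ (below S N h' t').card := by
  apply card_le_card
  intro n hn
  simp only [below, mem_filter, mem_Ioc] at hn ⊢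
  exact ⟨hn.1, hn.2.1, hh n hn.1.1 hn.2.2⟩

theorem spacing {q m N : ℕ} (hq : 1 ≤ q) (hm : 2 ^ m ≤ 4 * N) : ((2 ^ (m / q) : ℕ) : ℝ) ≤ 4 * (N : ℝ) ^ (1 / (q : ℝ)) := by
  have hq0 : (0 : ℝ) < q := by exact_mod_cast hq
  have h1 : ((2 ^ (m / q) : ℕ) : ℝ) ^ q ≤ 4 * N := by
    have : (2 ^ (m / q)) ^ q ≤ 2 ^ m := by
      rw [← pow_mul]
      exact Nat.pow_le_pow_right (by norm_num) (Nat.div_mul_le_self m q)
    exact_mod_cast this.trans hm
  have h0 : (0 : ℝ) ≤ ((2 ^ (m / q) : ℕ) : ℝ) := Nat.cast_nonneg _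
  calc ((2 ^ (m / q) : ℕ) : ℝ) = (((2 ^ (m / q) : ℕ) : ℝ) ^ q) ^ ((q : ℝ)⁻¹) :=
        (Real.pow_rpow_inv_natCast h0 (by omega)).symm
    _ ≤ (4 * (N : ℝ)) ^ ((q : ℝ)⁻¹) := Real.rpow_le_rpow (by positivity) h1 (by positivity)
    _ = 4 ^ ((q : ℝ)⁻¹) * (N : ℝ) ^ ((q : ℝ)⁻¹) := Real.mul_rpow (by norm_num) (Nat.cast_nonneg _)
    _ ≤ 4 * (N : ℝ) ^ ((q : ℝ)⁻¹) := by
        apply mul_le_mul_of_nonneg_right _ (by positivity)
        calc (4 : ℝ) ^ ((q : ℝ)⁻¹) ≤ 4 ^ (1 : ℝ) := by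
              apply Real.rpow_le_rpow_of_exponent_le (by norm_num)
              exact inv_le_one_of_one_le₀ (by exact_mod_cast hq)
          _ = 4 := Real.rpow_one 4
    _ = 4 * (N : ℝ) ^ (1 / (q : ℝ)) := by rw [one_div]

theorem logs (c : ℝ) (hc : 0 < c) : ∀ᶠ N : ℕ in atTop, 256 * ((Nat.clog 2 (2 * N) : ℝ) + 2) ^ 13 ≤ (N : ℝ) ^ c := by
  have h1 := (isLittleO_log_rpow_rpow_atTop (13 : ℝ) hc).comp_tendsto tendsto_natCast_atTop_atTop (α := ℝ)
  have h2 := h1.bound (show (0 : ℝ) < 1 / (256 * 4 ^ 13) by norm_num)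
  have h3 : Tendsto (fun N : ℕ => 2 * N) atTop atTop := tendsto_id.const_mul_atTop' (by norm_num)
  have h4 := h3.eventually clog_log
  filter_upwards [h2, h4, eventually_ge_atTop 2] with N g1 g2 g3
  have hN0 : (0 : ℝ) < N := by positivity
  have hlN : 0 ≤ Real.log N := Real.log_nonneg (by exact_mod_cast (by omega : 1 ≤ N))
  simp only [Function.comp] at g1
  have e13 : Real.log (N : ℝ) ^ (13 : ℝ) = Real.log N ^ 13 := by
    rw [← Real.rpow_natCast]
    norm_num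
  rw [e13, Real.norm_eq_abs, Real.norm_eq_abs, abs_of_nonneg (by positivity), abs_of_nonneg (by positivity)] at g1
  have g4 : Real.log ((2 * N : ℕ) : ℝ) ≤ 2 * Real.log N := by
    have : Real.log ((2 * N : ℕ) : ℝ) ≤ Real.log ((N : ℝ) ^ 2) := by
      apply Real.log_le_log (by positivity)
      have : 2 * N ≤ N ^ 2 := by nlinarith
      exact_mod_cast this
    rwa [Real.log_pow] at this
  have g5 : (Nat.clog 2 (2 * N) : ℝ) + 2 ≤ 4 * Real.log N := by linarith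
  calc 256 * ((Nat.clog 2 (2 * N) : ℝ) + 2) ^ 13 ≤ 256 * (4 * Real.log N) ^ 13 := by
        apply mul_le_mul_of_nonneg_left _ (by norm_num)
        exact pow_le_pow_left₀ (by positivity) g5 13
    _ = (256 * 4 ^ 13) * Real.log N ^ 13 := by rw [mul_pow]; ring
    _ ≤ (256 * 4 ^ 13) * (1 / (256 * 4 ^ 13) * (N : ℝ) ^ c) := mul_le_mul_of_nonneg_left g1 (by norm_num)
    _ = (N : ℝ) ^ c := by ring

theorem errBound {q m N : ℕ} (hq : 1 ≤ q) (hN : 1 ≤ N) (hm : 2 ^ m ≤ 4 * N)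
    (hl : 256 * ((m : ℝ) + 2) ^ 13 ≤ (N : ℝ) ^ (1 / (2 * (q : ℝ)))) :
    2 * Real.sqrt ((((2 ^ m / 2 ^ (m / q) + 1 : ℕ) : ℝ) + 1) * 2 ^ m * ((m : ℝ) + 2) ^ 13) ≤
      (N : ℝ) ^ (1 - 1 / (4 * (q : ℝ))) := by
  have hq0 : (0 : ℝ) < q := by exact_mod_cast hq
  have hq1 : (1 : ℝ) ≤ q := by exact_mod_cast hq
  have hN0 : (0 : ℝ) < N := by exact_mod_cast hN
  obtain ⟨M, hM⟩ : ∃ M : ℝ, M = 2 ^ m := ⟨_, rfl⟩
  have hM1 : 1 ≤ M := by rw [hM]; exact one_le_pow₀ (by norm_num)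
  have hM0 : 0 < M := by linarith
  have hM4 : M ≤ 4 * N := by rw [hM]; exact_mod_cast hm
  obtain ⟨a, ha⟩ : ∃ a : ℝ, a = M ^ (1 / (q : ℝ)) := ⟨_, rfl⟩
  have ha1 : 1 ≤ a := by rw [ha]; exact Real.one_le_rpow hM1 (by positivity)
  have ha0 : 0 < a := by linarith
  have haM : a ≤ M := by
    rw [ha]
    calc M ^ (1 / (q : ℝ)) ≤ M ^ (1 : ℝ) := by
          apply Real.rpow_le_rpow_of_exponent_le hM1
          rw [div_le_one hq0]
          exact hq1
      _ = M := Real.rpow_one M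
  have hs : a / 2 ≤ ((2 ^ (m / q) : ℕ) : ℝ) := by
    have e1 : a = (2 : ℝ) ^ ((m : ℝ) / q) := by
      rw [ha, hM, ← Real.rpow_natCast, ← Real.rpow_mul (by norm_num)]
      congr 1
      ring
    have e2 : ((2 ^ (m / q) : ℕ) : ℝ) * 2 = (2 : ℝ) ^ (((m / q : ℕ) : ℝ) + 1) := by
      rw [Real.rpow_add (by norm_num), Real.rpow_one, Real.rpow_natCast]
      push_cast
      ring
    rw [div_le_iff₀ (by norm_num), e2, e1]
    apply Real.rpow_le_rpow_of_exponent_le (by norm_num)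
    rw [div_le_iff₀ hq0]
    have : m ≤ (m / q + 1) * q := by
      have := Nat.lt_div_mul_add (a := m) (b := q) (by omega)
      nlinarith
    exact_mod_cast this
  have hG : ((2 ^ m / 2 ^ (m / q) + 1 : ℕ) : ℝ) + 1 ≤ 4 * (M / a) := by
    have e1 : ((2 ^ m / 2 ^ (m / q) : ℕ) : ℝ) ≤ M / (2 ^ (m / q) : ℕ) := by
      have := Nat.cast_div_le (α := ℝ) (m := 2 ^ m) (n := 2 ^ (m / q))
      rw [hM]
      refine this.trans (le_of_eq ?_)
      push_cast
      rfl
    have e2 : M / ((2 ^ (m / q) : ℕ) : ℝ) ≤ M / (a / 2) := div_le_div_of_nonneg_left hM0.le (by positivity) hs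
    have e3 : M / (a / 2) = 2 * (M / a) := by field_simp
    have e4 : 1 ≤ M / a := by rw [le_div_iff₀ ha0, one_mul]; exact haM
    push_cast
    push_cast at e1 e2
    linarith
  have hMa : M ^ 2 / a ≤ 16 * (N : ℝ) ^ (2 - 1 / (q : ℝ)) := by
    have hx : 0 ≤ 2 - 1 / (q : ℝ) := by
      have : 1 / (q : ℝ) ≤ 1 := by rw [div_le_one hq0]; exact hq1
      linarith
    calc M ^ 2 / a = M ^ (2 - 1 / (q : ℝ)) := by
          rw [ha, Real.rpow_sub hM0]
          norm_num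
      _ ≤ (4 * (N : ℝ)) ^ (2 - 1 / (q : ℝ)) := Real.rpow_le_rpow hM0.le hM4 hx
      _ = 4 ^ (2 - 1 / (q : ℝ)) * (N : ℝ) ^ (2 - 1 / (q : ℝ)) := Real.mul_rpow (by norm_num) hN0.le
      _ ≤ 16 * (N : ℝ) ^ (2 - 1 / (q : ℝ)) := by
          apply mul_le_mul_of_nonneg_right _ (by positivity)
          calc (4 : ℝ) ^ (2 - 1 / (q : ℝ)) ≤ 4 ^ (2 : ℝ) := by
                apply Real.rpow_le_rpow_of_exponent_le (by norm_num)
                have : 0 < 1 / (q : ℝ) := by positivity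
                linarith
            _ = 16 := by norm_num
  rw [← hM]
  have hfin : (2 * Real.sqrt ((((2 ^ m / 2 ^ (m / q) + 1 : ℕ) : ℝ) + 1) * M * ((m : ℝ) + 2) ^ 13)) ^ 2 ≤
      ((N : ℝ) ^ (1 - 1 / (4 * (q : ℝ)))) ^ 2 := by
    rw [mul_pow, Real.sq_sqrt (by positivity)]
    calc (2 : ℝ) ^ 2 * ((((2 ^ m / 2 ^ (m / q) + 1 : ℕ) : ℝ) + 1) * M * ((m : ℝ) + 2) ^ 13)
        ≤ 2 ^ 2 * ((4 * (M / a)) * M * ((m : ℝ) + 2) ^ 13) := by
          apply mul_le_mul_of_nonneg_left _ (by norm_num)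
          apply mul_le_mul_of_nonneg_right _ (by positivity)
          exact mul_le_mul_of_nonneg_right hG hM0.le
      _ = 16 * ((m : ℝ) + 2) ^ 13 * (M ^ 2 / a) := by ring
      _ ≤ 16 * ((m : ℝ) + 2) ^ 13 * (16 * (N : ℝ) ^ (2 - 1 / (q : ℝ))) :=
          mul_le_mul_of_nonneg_left hMa (by positivity)
      _ = 256 * ((m : ℝ) + 2) ^ 13 * (N : ℝ) ^ (2 - 1 / (q : ℝ)) := by ring
      _ ≤ (N : ℝ) ^ (1 / (2 * (q : ℝ))) * (N : ℝ) ^ (2 - 1 / (q : ℝ)) :=
          mul_le_mul_of_nonneg_right hl (by positivity)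
      _ = ((N : ℝ) ^ (1 - 1 / (4 * (q : ℝ)))) ^ 2 := by
          rw [← Real.rpow_add hN0, ← Real.rpow_natCast, ← Real.rpow_mul hN0.le]
          congr 1
          push_cast
          field_simp
          ring
  exact (sq_le_sq₀ (by positivity) (by positivity)).1 hfin

theorem mob (hF : S_METF) : S_MOB := by
  unfold S_MOB
  rw [ae_all_iff]
  intro q
  by_cases hq : 1 ≤ q
  swap
  · exact Filter.Eventually.of_forall fun α h => absurd h hq
  filter_upwards [hF (fun m => 2 ^ m / 2 ^ (m / q) + 1) (fun m u k => mobSum (k + 1) (u * 2 ^ (m / q)))] with α hα _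
  have hq0 : (0 : ℝ) < q := by exact_mod_cast hq
  have h3 : Tendsto (fun N : ℕ => 2 * N) atTop atTop := tendsto_id.const_mul_atTop' (by norm_num)
  have h4 := (tendsto_clog.comp h3).eventually hα
  obtain ⟨N₀, hN₀⟩ := eventually_atTop.1 ((h4.and (logs (1 / (2 * (q : ℝ))) (by positivity))).and (eventually_ge_atTop 1))
  refine ⟨N₀, fun N hN h hh t v hv0 hv1 => ?_⟩
  obtain ⟨⟨g1, g2⟩, g3⟩ := hN₀ N hN
  simp only [Function.comp] at g1
  obtain ⟨m, hm⟩ : ∃ m, m = Nat.clog 2 (2 * N) := ⟨_, rfl⟩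
  rw [← hm] at g1 g2
  obtain ⟨c1, c2⟩ := clog_facts (K := 2 * N) (by omega)
  rw [← hm] at c1 c2
  have c3 : 2 ^ m ≤ 4 * N := by omega
  obtain ⟨s, hs⟩ : ∃ s, s = 2 ^ (m / q) := ⟨_, rfl⟩
  have hs1 : 0 < s := by rw [hs]; positivity
  have hsp := spacing (q := q) hq c3
  rw [← hs] at hsp
  have hu : h / s < 2 ^ m / 2 ^ (m / q) + 1 := by
    rw [← hs]
    exact Nat.lt_succ_of_le (Nat.div_le_div_right (by omega))
  have g4 := g1 (h / s) hu
  have hus : h / s * s ≤ h := Nat.div_mul_le_self h s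
  have hus2 : h < h / s * s + s := Nat.lt_div_mul_add hs1
  have key := fun t' : ℝ => oneWin (α := α) (N := N) (m := m) (h' := h / s * s)
    (A := (((2 ^ m / 2 ^ (m / q) + 1 : ℕ) : ℝ) + 1) * 2 ^ m * ((m : ℝ) + 2) ^ 13) c1 (by
      intro K hK t'' v' hv0' hv1'
      have h5 := g4 K hK t'' v' hv0' hv1'
      rw [cnt_eq, cnt_eq] at h5
      simp only [← hs] at h5 ⊢
      exact h5) t' v hv0 hv1
  have herr := errBound (q := q) hq g3 c3 g2
  -- the windows
  have hw : ∀ n, N < n → |mobSum n h - mobSum n (h / s * s)| ≤ 8 * (N : ℝ) ^ (1 / (q : ℝ)) := by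
    intro n hn
    refine (win hus (by omega)).trans ?_
    have h5 : (h : ℝ) ≤ ((h / s * s : ℕ) : ℝ) + s := by exact_mod_cast hus2.le
    linarith
  obtain ⟨W, hW⟩ : ∃ W : ℝ, W = (N : ℝ) ^ (1 / (q : ℝ)) := ⟨_, rfl⟩
  rw [← hW] at hw ⊢
  constructor
  · have k1 := (abs_le.1 (key (t - 8 * W))).1
    have k2 : (below Set.univ N h (t - 16 * W)).card ≤ (below Set.univ N (h / s * s) (t - 8 * W)).card :=
      below_mono fun n hn hle => by
        have := (abs_le.1 (hw n hn)).1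
        linarith
    have k3 : (below (arcSet α v) N (h / s * s) (t - 8 * W)).card ≤ (below (arcSet α v) N h t).card :=
      below_mono fun n hn hle => by
        have := (abs_le.1 (hw n hn)).2
        linarith
    have k2' : ((below Set.univ N h (t - 16 * W)).card : ℝ) ≤ ((below Set.univ N (h / s * s) (t - 8 * W)).card : ℝ) := by
      exact_mod_cast k2
    have k3' : ((below (arcSet α v) N (h / s * s) (t - 8 * W)).card : ℝ) ≤ ((below (arcSet α v) N h t).card : ℝ) := by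
      exact_mod_cast k3
    have k4 := mul_le_mul_of_nonneg_left k2' hv0
    linarith
  · have k1 := (abs_le.1 (key (t + 8 * W))).2
    have k2 : (below Set.univ N (h / s * s) (t + 8 * W)).card ≤ (below Set.univ N h (t + 16 * W)).card :=
      below_mono fun n hn hle => by
        have := (abs_le.1 (hw n hn)).2
        linarith
    have k3 : (below (arcSet α v) N h t).card ≤ (below (arcSet α v) N (h / s * s) (t + 8 * W)).card :=
      below_mono fun n hn hle => by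
        have := (abs_le.1 (hw n hn)).1
        linarith
    have k2' : ((below Set.univ N (h / s * s) (t + 8 * W)).card : ℝ) ≤ ((below Set.univ N h (t + 16 * W)).card : ℝ) := by
      exact_mod_cast k2
    have k3' : ((below (arcSet α v) N h t).card : ℝ) ≤ ((below (arcSet α v) N (h / s * s) (t + 8 * W)).card : ℝ) := by
      exact_mod_cast k3
    have k4 := mul_le_mul_of_nonneg_left k2' hv0
    linarith

end Pool.Agent.H59.MR
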