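import Pool.Agent.H90.MR.Stm

/-!
# Project MR (helper90), modules MOM and EXP
-/

set_option autoImplicit false

namespace Pool.Agent.H59.MR

open Finset MeasureTheory Pool.Agent.H90.MR

/-- bounded and measurable -/
def Gd (F : ℝ → ℝ) : Prop := Measurable F ∧ ∃ C : ℝ, ∀ x, |F x| ≤ C

theorem Gd.ii {F : ℝ → ℝ} (h : Gd F) (a b : ℝ) : IntervalIntegrable F volume a b := by
  obtain ⟨h1, C, hC⟩ := h
  rw [intervalIntegrable_iff]
  refine Measure.integrableOn_of_bounded (M := C) (by simp) h1.aestronglyMeasurable ?_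
  exact Filter.Eventually.of_forall fun x => hC x

theorem gd_g (c d : ℝ) (n : ℕ) : Gd (g c d n) := by
  refine ⟨?_, 1 + |d - c|, ?_⟩
  · unfold g
    have hf : Measurable (fun x : ℝ => Int.fract ((n : ℝ) * x)) :=
      measurable_fract.comp (measurable_const.mul measurable_id)
    refine Measurable.sub ?_ measurable_const
    refine Measurable.ite ?_ measurable_const measurable_const
    exact (measurableSet_le measurable_const hf).inter (measurableSet_lt hf measurable_const)
  · intro x
    unfold g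
    split_ifs
    · calc |1 - (d - c)| ≤ |(1 : ℝ)| + |d - c| := abs_sub _ _
        _ = 1 + |d - c| := by rw [abs_one]
    · rw [zero_sub, abs_neg]
      linarith

theorem Gd.mul {F G : ℝ → ℝ} (hF : Gd F) (hG : Gd G) : Gd (fun x => F x * G x) := by
  obtain ⟨h1, C, hC⟩ := hF
  obtain ⟨h2, D, hD⟩ := hG
  refine ⟨h1.mul h2, C * D, fun x => ?_⟩
  rw [abs_mul]
  exact mul_le_mul (hC x) (hD x) (abs_nonneg _) ((abs_nonneg _).trans (hC x))

theorem gd_sum {ι : Type} (s : Finset ι) (F : ι → ℝ → ℝ) (hF : ∀ i ∈ s, Gd (F i)) :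
    Gd (fun x => ∑ i ∈ s, F i x) := by
  classical
  induction s using Finset.induction_on with
  | empty =>
    refine ⟨by simp, 0, fun x => by simp⟩
  | insert i s hi ih =>
    obtain ⟨h1, C, hC⟩ := hF i (mem_insert_self _ _)
    obtain ⟨h2, D, hD⟩ := ih fun j hj => hF j (mem_insert_of_mem hj)
    have he : (fun x => ∑ j ∈ insert i s, F j x) = fun x => F i x + ∑ j ∈ s, F j x := by
      funext x
      rw [sum_insert hi]
    rw [he]
    refine ⟨h1.add h2, C + D, fun x => ?_⟩
    exact (abs_add_le _ _).trans (add_le_add (hC x) (hD x))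

theorem Gd.sq {F : ℝ → ℝ} (hF : Gd F) : Gd (fun x => F x ^ 2) := by
  have h := hF.mul hF
  have he : (fun x => F x ^ 2) = fun x => F x * F x := by
    funext x
    ring
  rw [he]
  exact h

theorem mom (hC : S_COV) (hV : S_VAR) : S_MOM := by
  classical
  intro n hn hn0 hcop c d hcd D
  have hnk : ∀ k, k < n k := by
    intro k
    induction k with
    | zero => exact hn0
    | succ k ih =>
      have : n k < n (k + 1) := hn (Nat.lt_succ_self k)
      omega
  have hw : ∀ k, 0 ≤ d k - c k := fun k => by linarith [(hcd k).2.1]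
  have hnpos : ∀ k, (0 : ℝ) < (n k : ℝ) := fun k => by
    have := hnk k
    exact_mod_cast (by omega : 0 < n k)
  -- expand the square
  have h1 : ∫ x in (0 : ℝ)..1, (∑ k ∈ D, g (c k) (d k) (n k) x) ^ 2 =
      ∑ k ∈ D, ∑ l ∈ D, ∫ x in (0 : ℝ)..1, g (c k) (d k) (n k) x * g (c l) (d l) (n l) x := by
    have he : (fun x => (∑ k ∈ D, g (c k) (d k) (n k) x) ^ 2) =
        fun x => ∑ k ∈ D, ∑ l ∈ D, g (c k) (d k) (n k) x * g (c l) (d l) (n l) x := by
      funext x
      rw [pow_two, sum_mul_sum]
    rw [he, intervalIntegral.integral_finsetSum]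
    · refine sum_congr rfl fun k _ => ?_
      rw [intervalIntegral.integral_finsetSum]
      intro l _
      exact ((gd_g _ _ _).mul (gd_g _ _ _)).ii 0 1
    · intro k _
      exact (gd_sum D (fun l x => g (c k) (d k) (n k) x * g (c l) (d l) (n l) x)
        (fun l _ => (gd_g _ _ _).mul (gd_g _ _ _))).ii 0 1
  rw [h1]
  -- the bound for each pair
  have h2 : ∀ k l, ∫ x in (0 : ℝ)..1, g (c k) (d k) (n k) x * g (c l) (d l) (n l) x ≤
      (if l < k then (d k - c k) / n k else 0) + (if k < l then (d l - c l) / n l else 0) +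
        (if l = k then d k - c k else 0) := by
    intro k l
    rcases lt_trichotomy l k with h | h | h
    · rw [if_pos h, if_neg (by omega), if_neg (by omega), add_zero, add_zero]
      refine (le_abs_self _).trans ?_
      exact hC (n k) (n l) (by have := hnk l; omega) (hn h) (hcop k l (by omega)) _ _ _ _
        (hcd k).1 (hcd k).2.1 (hcd k).2.2 (hcd l).1 (hcd l).2.1 (hcd l).2.2
    · rw [if_neg (by omega), if_neg (by omega), if_pos h, zero_add, zero_add, h]
      refine le_trans (le_of_eq ?_) (hV (n k) (by have := hnk k; omega) _ _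
        (hcd k).1 (hcd k).2.1 (hcd k).2.2)
      refine intervalIntegral.integral_congr ?_
      intro x _
      change g (c k) (d k) (n k) x * g (c k) (d k) (n k) x = g (c k) (d k) (n k) x ^ 2
      ring
    · rw [if_neg (by omega), if_pos h, if_neg (by omega), zero_add, add_zero]
      refine le_trans (le_of_eq ?_) ((le_abs_self _).trans (hC (n l) (n k)
        (by have := hnk k; omega) (hn h) (hcop l k (by omega)) _ _ _ _
        (hcd l).1 (hcd l).2.1 (hcd l).2.2 (hcd k).1 (hcd k).2.1 (hcd k).2.2))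
      refine intervalIntegral.integral_congr ?_
      intro x _
      change g (c k) (d k) (n k) x * g (c l) (d l) (n l) x =
        g (c l) (d l) (n l) x * g (c k) (d k) (n k) x
      ring
  have h3 : ∑ k ∈ D, ∑ l ∈ D, (if l < k then (d k - c k) / n k else 0) ≤
      ∑ k ∈ D, (d k - c k) := by
    refine sum_le_sum fun k _ => ?_
    rw [← sum_filter, sum_const, nsmul_eq_mul]
    have hcard : ((D.filter (fun l => l < k)).card : ℝ) ≤ (n k : ℝ) := by
      have h4 : (D.filter (fun l => l < k)).card ≤ k := by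
        calc (D.filter (fun l => l < k)).card ≤ (range k).card := by
              refine card_le_card ?_
              intro l hl
              rw [mem_filter] at hl
              exact mem_range.mpr hl.2
          _ = k := card_range k
      have h5 := hnk k
      exact_mod_cast (by omega : (D.filter (fun l => l < k)).card ≤ n k)
    calc ((D.filter (fun l => l < k)).card : ℝ) * ((d k - c k) / n k) ≤
        (n k : ℝ) * ((d k - c k) / n k) :=
          mul_le_mul_of_nonneg_right hcard (div_nonneg (hw k) (hnpos k).le)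
      _ = d k - c k := by
          field_simp [(hnpos k).ne']
  have h4 : ∑ k ∈ D, ∑ l ∈ D, (if k < l then (d l - c l) / n l else 0) ≤
      ∑ k ∈ D, (d k - c k) := by
    rw [sum_comm]
    exact h3
  have h5 : ∑ k ∈ D, ∑ l ∈ D, (if l = k then d k - c k else 0) ≤ ∑ k ∈ D, (d k - c k) := by
    refine sum_le_sum fun k hk => ?_
    rw [sum_ite_eq' D k (fun _ => d k - c k), if_pos hk]
  calc ∑ k ∈ D, ∑ l ∈ D, ∫ x in (0 : ℝ)..1,
        g (c k) (d k) (n k) x * g (c l) (d l) (n l) x ≤
      ∑ k ∈ D, ∑ l ∈ D, ((if l < k then (d k - c k) / n k else 0) +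
        (if k < l then (d l - c l) / n l else 0) + (if l = k then d k - c k else 0)) :=
        sum_le_sum fun k _ => sum_le_sum fun l _ => h2 k l
    _ = ∑ k ∈ D, ∑ l ∈ D, (if l < k then (d k - c k) / n k else 0) +
        ∑ k ∈ D, ∑ l ∈ D, (if k < l then (d l - c l) / n l else 0) +
        ∑ k ∈ D, ∑ l ∈ D, (if l = k then d k - c k else 0) := by
        simp only [sum_add_distrib]
    _ ≤ 3 * ∑ k ∈ D, (d k - c k) := by linarith

theorem gd_QQ (m : ℕ) (S : Finset ℕ) (F : ℕ → ℝ → ℝ) (hF : ∀ k, Gd (F k)) (rs : List (ℕ → ℕ)) :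
    ∀ τ : ℕ → List ℤ, Gd (fun x => QQ m S (fun k => F k x) rs τ) := by
  induction rs with
  | nil =>
    intro τ
    change Gd (fun x => ∑ c ∈ S.image τ, (∑ k ∈ S.filter (fun k => τ k = c), F k x) ^ 2)
    refine gd_sum _ (fun c x => (∑ k ∈ S.filter (fun k => τ k = c), F k x) ^ 2) ?_
    intro c _
    exact (gd_sum _ F fun k _ => hF k).sq
  | cons r rs ih =>
    intro τ
    change Gd (fun x => ∑ i ∈ range (m + 1),
      QQ m S (fun k => F k x) rs (fun k => ((r k / 2 ^ i : ℕ) : ℤ) :: τ k))
    exact gd_sum _ (fun i x => QQ m S (fun k => F k x) rs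
      (fun k => ((r k / 2 ^ i : ℕ) : ℤ) :: τ k)) fun i _ => ih _

theorem exp (hM : S_MOM) : S_EXP := by
  intro n hn hn0 hcop c d hcd m S rs
  induction rs with
  | nil =>
    intro τ
    change ∫ x in (0 : ℝ)..1, ∑ e ∈ S.image τ,
      (∑ k ∈ S.filter (fun k => τ k = e), g (c k) (d k) (n k) x) ^ 2 ≤ _
    rw [intervalIntegral.integral_finsetSum]
    · calc ∑ e ∈ S.image τ, ∫ x in (0 : ℝ)..1,
            (∑ k ∈ S.filter (fun k => τ k = e), g (c k) (d k) (n k) x) ^ 2 ≤
          ∑ e ∈ S.image τ, 3 * ∑ k ∈ S.filter (fun k => τ k = e), (d k - c k) :=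
            sum_le_sum fun e _ => hM n hn hn0 hcop c d hcd _
        _ = 3 * ∑ k ∈ S, (d k - c k) := by
            rw [← mul_sum, sum_fiberwise_of_maps_to (fun k hk => mem_image_of_mem τ hk)]
        _ = 3 * ((m : ℝ) + 1) ^ (List.length ([] : List (ℕ → ℕ))) *
            ∑ k ∈ S, (d k - c k) := by
            rw [List.length_nil, pow_zero, mul_one]
    · intro e _
      exact (gd_sum _ (fun k => g (c k) (d k) (n k)) fun k _ => gd_g _ _ _).sq.ii 0 1
  | cons r rs ih =>
    intro τ
    change ∫ x in (0 : ℝ)..1, ∑ i ∈ range (m + 1),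
      QQ m S (fun k => g (c k) (d k) (n k) x) rs (fun k => ((r k / 2 ^ i : ℕ) : ℤ) :: τ k) ≤ _
    rw [intervalIntegral.integral_finsetSum]
    · calc ∑ i ∈ range (m + 1), ∫ x in (0 : ℝ)..1, QQ m S (fun k => g (c k) (d k) (n k) x) rs
            (fun k => ((r k / 2 ^ i : ℕ) : ℤ) :: τ k) ≤
          ∑ i ∈ range (m + 1), 3 * ((m : ℝ) + 1) ^ rs.length * ∑ k ∈ S, (d k - c k) :=
            sum_le_sum fun i _ => ih _
        _ = 3 * ((m : ℝ) + 1) ^ (r :: rs).length * ∑ k ∈ S, (d k - c k) := by
            rw [sum_const, card_range, nsmul_eq_mul, List.length_cons]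
            push_cast
            ring
    · intro i _
      exact (gd_QQ m S (fun k => g (c k) (d k) (n k)) (fun k => gd_g _ _ _) rs _).ii 0 1

end Pool.Agent.H59.MR
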