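import Pool.Agent.H59.MR.Mom
import Pool.Agent.H90.MR.StmInt

/-!
# Project MR (helper90), modules MOMG and EXPG
-/

set_option autoImplicit false

namespace Pool.Agent.H59.MR

open Finset MeasureTheory Pool.Agent.H90.MR

theorem gcd_sum (hG : S_GCD) (D : Finset ℕ) (k : ℕ) :
    ∑ l ∈ D.filter (fun l => l < k), (Nat.gcd (k + 1) (l + 1) : ℝ) ≤ ((k + 1 : ℕ) : ℝ) * ((k + 1).divisors.card : ℝ) := by
  have h1 : ∑ l ∈ D.filter (fun l => l < k), Nat.gcd (k + 1) (l + 1) ≤ (k + 1) * (k + 1).divisors.card := by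
    calc ∑ l ∈ D.filter (fun l => l < k), Nat.gcd (k + 1) (l + 1) ≤ ∑ l ∈ range k, Nat.gcd (k + 1) (l + 1) := by
          refine sum_le_sum_of_subset ?_
          intro l hl
          rw [mem_filter] at hl
          exact mem_range.mpr hl.2
      _ = ∑ l ∈ range k, Nat.gcd (l + 1) (k + 1) := sum_congr rfl fun l _ => Nat.gcd_comm _ _
      _ ≤ ∑ m ∈ range (k + 1), Nat.gcd m (k + 1) := by
          rw [sum_range_succ' (fun m => Nat.gcd m (k + 1)) k]
          exact Nat.le_add_right _ _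
      _ ≤ _ := hG (k + 1) (by omega)
  exact_mod_cast h1

theorem momg (hC : S_COVG) (hV : S_VAR) (hG : S_GCD) : S_MOMG := by
  classical
  intro c d hcd D
  have hw : ∀ k, 0 ≤ d k - c k := fun k => by linarith [(hcd k).2.1]
  have hnpos : ∀ k : ℕ, (0 : ℝ) < ((k + 1 : ℕ) : ℝ) := fun k => by positivity
  -- expand the square
  have h1 : ∫ x in (0 : ℝ)..1, (∑ k ∈ D, g (c k) (d k) (k + 1) x) ^ 2 =
      ∑ k ∈ D, ∑ l ∈ D, ∫ x in (0 : ℝ)..1, g (c k) (d k) (k + 1) x * g (c l) (d l) (l + 1) x := by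
    have he : (fun x => (∑ k ∈ D, g (c k) (d k) (k + 1) x) ^ 2) =
        fun x => ∑ k ∈ D, ∑ l ∈ D, g (c k) (d k) (k + 1) x * g (c l) (d l) (l + 1) x := by
      funext x
      rw [pow_two, sum_mul_sum]
    rw [he, intervalIntegral.integral_finsetSum]
    · refine sum_congr rfl fun k _ => ?_
      rw [intervalIntegral.integral_finsetSum]
      intro l _
      exact ((gd_g _ _ _).mul (gd_g _ _ _)).ii 0 1
    · intro k _
      exact (gd_sum D (fun l x => g (c k) (d k) (k + 1) x * g (c l) (d l) (l + 1) x)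
        (fun l _ => (gd_g _ _ _).mul (gd_g _ _ _))).ii 0 1
  rw [h1]
  -- the bound for each pair
  have h2 : ∀ k l, ∫ x in (0 : ℝ)..1, g (c k) (d k) (k + 1) x * g (c l) (d l) (l + 1) x ≤
      (if l < k then (d k - c k) * (Nat.gcd (k + 1) (l + 1) : ℝ) / ((k + 1 : ℕ) : ℝ) else 0) +
        (if k < l then (d l - c l) * (Nat.gcd (l + 1) (k + 1) : ℝ) / ((l + 1 : ℕ) : ℝ) else 0) +
        (if l = k then d k - c k else 0) := by
    intro k l
    rcases lt_trichotomy l k with h | h | h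
    · rw [if_pos h, if_neg (by omega), if_neg (by omega), add_zero, add_zero]
      refine (le_abs_self _).trans ?_
      exact hC (k + 1) (l + 1) (by omega) (by omega) _ _ _ _
        (hcd k).1 (hcd k).2.1 (hcd k).2.2 (hcd l).1 (hcd l).2.1 (hcd l).2.2
    · rw [if_neg (by omega), if_neg (by omega), if_pos h, zero_add, zero_add, h]
      refine le_trans (le_of_eq ?_) (hV (k + 1) (by omega) _ _
        (hcd k).1 (hcd k).2.1 (hcd k).2.2)
      refine intervalIntegral.integral_congr ?_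
      intro x _
      change g (c k) (d k) (k + 1) x * g (c k) (d k) (k + 1) x = g (c k) (d k) (k + 1) x ^ 2
      ring
    · rw [if_neg (by omega), if_pos h, if_neg (by omega), zero_add, add_zero]
      refine le_trans (le_of_eq ?_) ((le_abs_self _).trans (hC (l + 1) (k + 1)
        (by omega) (by omega) _ _ _ _
        (hcd l).1 (hcd l).2.1 (hcd l).2.2 (hcd k).1 (hcd k).2.1 (hcd k).2.2))
      refine intervalIntegral.integral_congr ?_
      intro x _
      change g (c k) (d k) (k + 1) x * g (c l) (d l) (l + 1) x =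
        g (c l) (d l) (l + 1) x * g (c k) (d k) (k + 1) x
      ring
  have h3 : ∑ k ∈ D, ∑ l ∈ D, (if l < k then (d k - c k) * (Nat.gcd (k + 1) (l + 1) : ℝ) / ((k + 1 : ℕ) : ℝ) else 0) ≤
      ∑ k ∈ D, ((k + 1).divisors.card : ℝ) * (d k - c k) := by
    refine sum_le_sum fun k _ => ?_
    rw [← sum_filter]
    have h6 := gcd_sum hG D k
    calc ∑ l ∈ D.filter (fun l => l < k), (d k - c k) * (Nat.gcd (k + 1) (l + 1) : ℝ) / ((k + 1 : ℕ) : ℝ) =
        (d k - c k) / ((k + 1 : ℕ) : ℝ) * ∑ l ∈ D.filter (fun l => l < k), (Nat.gcd (k + 1) (l + 1) : ℝ) := by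
          rw [mul_sum]
          refine sum_congr rfl fun l _ => ?_
          ring
      _ ≤ (d k - c k) / ((k + 1 : ℕ) : ℝ) * (((k + 1 : ℕ) : ℝ) * ((k + 1).divisors.card : ℝ)) :=
          mul_le_mul_of_nonneg_left h6 (div_nonneg (hw k) (hnpos k).le)
      _ = ((k + 1).divisors.card : ℝ) * (d k - c k) := by
          have := (hnpos k).ne'
          field_simp
  have h4 : ∑ k ∈ D, ∑ l ∈ D, (if k < l then (d l - c l) * (Nat.gcd (l + 1) (k + 1) : ℝ) / ((l + 1 : ℕ) : ℝ) else 0) ≤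
      ∑ k ∈ D, ((k + 1).divisors.card : ℝ) * (d k - c k) := by
    rw [sum_comm]
    exact h3
  have h5 : ∑ k ∈ D, ∑ l ∈ D, (if l = k then d k - c k else 0) ≤
      ∑ k ∈ D, ((k + 1).divisors.card : ℝ) * (d k - c k) := by
    refine sum_le_sum fun k hk => ?_
    rw [sum_ite_eq' D k (fun _ => d k - c k), if_pos hk]
    have h7 : (1 : ℝ) ≤ ((k + 1).divisors.card : ℝ) := by
      have : 0 < (k + 1).divisors.card := card_pos.2 ⟨1, Nat.one_mem_divisors.2 (by omega)⟩
      exact_mod_cast this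
    calc d k - c k = 1 * (d k - c k) := (one_mul _).symm
      _ ≤ _ := mul_le_mul_of_nonneg_right h7 (hw k)
  calc ∑ k ∈ D, ∑ l ∈ D, ∫ x in (0 : ℝ)..1,
        g (c k) (d k) (k + 1) x * g (c l) (d l) (l + 1) x ≤
      ∑ k ∈ D, ∑ l ∈ D, ((if l < k then (d k - c k) * (Nat.gcd (k + 1) (l + 1) : ℝ) / ((k + 1 : ℕ) : ℝ) else 0) +
        (if k < l then (d l - c l) * (Nat.gcd (l + 1) (k + 1) : ℝ) / ((l + 1 : ℕ) : ℝ) else 0) +
        (if l = k then d k - c k else 0)) :=
        sum_le_sum fun k _ => sum_le_sum fun l _ => h2 k l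
    _ = ∑ k ∈ D, ∑ l ∈ D, (if l < k then (d k - c k) * (Nat.gcd (k + 1) (l + 1) : ℝ) / ((k + 1 : ℕ) : ℝ) else 0) +
        ∑ k ∈ D, ∑ l ∈ D, (if k < l then (d l - c l) * (Nat.gcd (l + 1) (k + 1) : ℝ) / ((l + 1 : ℕ) : ℝ) else 0) +
        ∑ k ∈ D, ∑ l ∈ D, (if l = k then d k - c k else 0) := by
        simp only [sum_add_distrib]
    _ ≤ 3 * ∑ k ∈ D, ((k + 1).divisors.card : ℝ) * (d k - c k) := by linarith

theorem expg (hM : S_MOMG) : S_EXPG := by
  intro c d hcd m S rs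
  induction rs with
  | nil =>
    intro τ
    change ∫ x in (0 : ℝ)..1, ∑ e ∈ S.image τ,
      (∑ k ∈ S.filter (fun k => τ k = e), g (c k) (d k) (k + 1) x) ^ 2 ≤ _
    rw [intervalIntegral.integral_finsetSum]
    · calc ∑ e ∈ S.image τ, ∫ x in (0 : ℝ)..1,
            (∑ k ∈ S.filter (fun k => τ k = e), g (c k) (d k) (k + 1) x) ^ 2 ≤
          ∑ e ∈ S.image τ, 3 * ∑ k ∈ S.filter (fun k => τ k = e), ((k + 1).divisors.card : ℝ) * (d k - c k) :=
            sum_le_sum fun e _ => hM c d hcd _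
        _ = 3 * ∑ k ∈ S, ((k + 1).divisors.card : ℝ) * (d k - c k) := by
            rw [← mul_sum, sum_fiberwise_of_maps_to (fun k hk => mem_image_of_mem τ hk)]
        _ = 3 * ((m : ℝ) + 1) ^ (List.length ([] : List (ℕ → ℕ))) *
            ∑ k ∈ S, ((k + 1).divisors.card : ℝ) * (d k - c k) := by
            rw [List.length_nil, pow_zero, mul_one]
    · intro e _
      exact (gd_sum _ (fun k => g (c k) (d k) (k + 1)) fun k _ => gd_g _ _ _).sq.ii 0 1
  | cons r rs ih =>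
    intro τ
    change ∫ x in (0 : ℝ)..1, ∑ i ∈ range (m + 1),
      QQ m S (fun k => g (c k) (d k) (k + 1) x) rs (fun k => ((r k / 2 ^ i : ℕ) : ℤ) :: τ k) ≤ _
    rw [intervalIntegral.integral_finsetSum]
    · calc ∑ i ∈ range (m + 1), ∫ x in (0 : ℝ)..1, QQ m S (fun k => g (c k) (d k) (k + 1) x) rs
            (fun k => ((r k / 2 ^ i : ℕ) : ℤ) :: τ k) ≤
          ∑ i ∈ range (m + 1), 3 * ((m : ℝ) + 1) ^ rs.length * ∑ k ∈ S, ((k + 1).divisors.card : ℝ) * (d k - c k) :=
            sum_le_sum fun i _ => ih _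
        _ = 3 * ((m : ℝ) + 1) ^ (r :: rs).length * ∑ k ∈ S, ((k + 1).divisors.card : ℝ) * (d k - c k) := by
            rw [sum_const, card_range, nsmul_eq_mul, List.length_cons]
            push_cast
            ring
    · intro i _
      exact (gd_QQ m S (fun k => g (c k) (d k) (k + 1)) (fun k => gd_g _ _ _) rs _).ii 0 1

end Pool.Agent.H59.MR
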