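import Pool.Agent.H90.MR.StmReal

/-! # Project MR (helper90): module WIN (helper59) -/

set_option autoImplicit false

namespace Pool.Agent.H59.MR

open Finset Pool.Agent.H90.MR

theorem diff_le (A B : Finset ℕ) (f : ℕ → ℝ) (hf : ∀ k, |f k| ≤ 1) :
    |∑ k ∈ A, f k - ∑ k ∈ B, f k| ≤ ((A \ B).card : ℝ) + ((B \ A).card : ℝ) := by
  have h1 : ∑ k ∈ A, f k = ∑ k ∈ A \ B, f k + ∑ k ∈ A ∩ B, f k := by
    rw [add_comm, sum_inter_add_sum_sdiff]
  have h2 : ∑ k ∈ B, f k = ∑ k ∈ B \ A, f k + ∑ k ∈ A ∩ B, f k := by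
    rw [add_comm, inter_comm, sum_inter_add_sum_sdiff]
  have h3 : ∀ S : Finset ℕ, |∑ k ∈ S, f k| ≤ (S.card : ℝ) := fun S => by
    calc |∑ k ∈ S, f k| ≤ ∑ k ∈ S, |f k| := abs_sum_le_sum_abs _ _
      _ ≤ ∑ k ∈ S, (1 : ℝ) := sum_le_sum fun k _ => hf k
      _ = (S.card : ℝ) := by rw [sum_const, nsmul_eq_mul, mul_one]
  rw [h1, h2, add_sub_add_right_eq_sub]
  exact (abs_sub _ _).trans (add_le_add (h3 _) (h3 _))

theorem win : S_WIN := by
  intro H x hH hx
  unfold mobReal mobSum
  obtain ⟨n, hn⟩ : ∃ n, n = ⌊x⌋₊ := ⟨_, rfl⟩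
  obtain ⟨h, hh⟩ : ∃ h, h = ⌊H / 2⌋₊ := ⟨_, rfl⟩
  rw [← hn, ← hh]
  have n1 : (n : ℝ) ≤ x := by rw [hn]; exact Nat.floor_le (by linarith)
  have n2 : x < n + 1 := by rw [hn]; exact Nat.lt_floor_add_one x
  have h1 : (h : ℝ) ≤ H / 2 := by rw [hh]; exact Nat.floor_le (by linarith)
  have h2 : H / 2 < h + 1 := by rw [hh]; exact Nat.lt_floor_add_one _
  have h3 : 1 ≤ h := by
    rw [hh]
    apply Nat.le_floor
    push_cast
    linarith
  have hhn : h ≤ n := by
    rw [hn]
    apply Nat.le_floor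
    linarith
  have h3r : (1 : ℝ) ≤ h := by exact_mod_cast h3
  obtain ⟨A, hA⟩ : ∃ A, A = (Finset.range (⌊x + H⌋₊ + 1)).filter (fun n : ℕ => |(n : ℝ) - x| < H / 2) := ⟨_, rfl⟩
  obtain ⟨B, hB⟩ : ∃ B, B = Icc (n - h) (n + h) := ⟨_, rfl⟩
  rw [← hA, ← hB]
  have memA : ∀ k : ℕ, k ∈ A ↔ |(k : ℝ) - x| < H / 2 := by
    intro k
    rw [hA, mem_filter, mem_range]
    refine ⟨fun g => g.2, fun g => ⟨?_, g⟩⟩
    have g1 := (abs_lt.1 g).2
    have : k ≤ ⌊x + H⌋₊ := Nat.le_floor (by linarith)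
    omega
  have memB : ∀ k : ℕ, k ∈ B ↔ n - h ≤ k ∧ k ≤ n + h := by
    intro k
    rw [hB, mem_Icc]
  have a1 : ∀ k ∈ A, n - h ≤ k ∧ k ≤ n + h + 1 := by
    intro k hk
    have g := abs_lt.1 ((memA k).1 hk)
    have g1 : (k : ℝ) < n + h + 2 := by linarith [g.2]
    have g2 : (n : ℝ) < k + h + 1 := by linarith [g.1]
    have g1' : k < n + h + 2 := by exact_mod_cast g1
    have g2' : n < k + h + 1 := by exact_mod_cast g2
    omega
  have a2 : ∀ k ∈ B, k ≠ n - h → k ≠ n + h → k ∈ A := by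
    intro k hk k1 k2
    have g := (memB k).1 hk
    have g1 : k + 1 ≤ n + h := by omega
    have g2 : n + 1 ≤ k + h := by omega
    have g1' : (k : ℝ) + 1 ≤ n + h := by exact_mod_cast g1
    have g2' : (n : ℝ) + 1 ≤ k + h := by exact_mod_cast g2
    rw [memA, abs_lt]
    constructor <;> linarith
  have a3 : n + h + 1 ∈ A → n + h ∈ A := by
    intro g
    have g1 := abs_lt.1 ((memA _).1 g)
    push_cast at g1
    rw [memA, abs_lt]
    push_cast
    constructor <;> linarith [g1.1, g1.2]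
  have hcard : (A \ B).card + (B \ A).card ≤ 2 := by
    by_cases hc : n + h + 1 ∈ A
    · have c1 : A \ B ⊆ {n + h + 1} := by
        intro k hk
        rw [mem_sdiff] at hk
        have g := a1 k hk.1
        have g2 := hk.2
        rw [memB] at g2
        rw [mem_singleton]
        omega
      have c2 : B \ A ⊆ {n - h} := by
        intro k hk
        rw [mem_sdiff] at hk
        rw [mem_singleton]
        by_contra g
        by_cases g2 : k = n + h
        · rw [g2] at hk
          exact hk.2 (a3 hc)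
        · exact hk.2 (a2 k hk.1 g g2)
      have d1 := card_le_card c1
      have d2 := card_le_card c2
      rw [card_singleton] at d1 d2
      omega
    · have c1 : A \ B = ∅ := by
        rw [eq_empty_iff_forall_notMem]
        intro k hk
        rw [mem_sdiff] at hk
        have g := a1 k hk.1
        have g2 := hk.2
        rw [memB] at g2
        have g3 : k = n + h + 1 := by omega
        rw [g3] at hk
        exact hc hk.1
      have c2 : B \ A ⊆ {n - h, n + h} := by
        intro k hk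
        rw [mem_sdiff] at hk
        rw [mem_insert, mem_singleton]
        by_contra g
        push Not at g
        exact hk.2 (a2 k hk.1 g.1 g.2)
      have d2 := (card_le_card c2).trans (card_le_two)
      rw [c1, card_empty]
      omega
  refine (diff_le A B (fun k => ((ArithmeticFunction.moebius k : ℤ) : ℝ)) (fun k => ?_)).trans ?_
  · have := ArithmeticFunction.abs_moebius_le_one (n := k)
    exact_mod_cast this
  · exact_mod_cast hcard

end Pool.Agent.H59.MR
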